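import Mathlib
import Pool.Prelude.Def_F_c31e40fa
import Pool.Agent.W677.MC8
import Pool.Agent.X220.CU.Real

/-!
# The exterior map of the Mandelbrot set at the cusp `1/4`

Let `ψ` be the exterior map of the Mandelbrot set `M`, the normalised conformal map of `{|z| > 1}` onto
the complement of `M`.  The curves `ψ {|z| = r}`, `r > 1`, are the equipotentials.  We determine the
position of the equipotentials near the cusp `1/4` up to a bounded error in the exponent.  With
`L = log (1 / (r - 1))`, for all `1 < r ≤ 2`: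

* `π log 2 / √|ψ z - 1/4| ≤ L + 30` for all `z` on the circle `|z| = r`;
* `ψ r` is real and larger than `1/4`, and `|π log 2 / √(ψ r - 1/4) - L| ≤ 30`.

So the distance of `1/4` to the equipotential is `(π log 2)² / L² + O(1 / L³)`, and
`(ψ r - 1/4) L² → (π log 2)²` as `r → 1`.

The proof.  For `c = 1/4 + s²` the critical orbit `x_n`, in the coordinate `y = x - 1/2`, satisfies
`y' = y + y² + s²`, and `arctan (y'/s) = arctan (y/s) + arctan (s/(1 + y))`,
`y'² + s² = (y² + s²) ((1 + y)² + s²)` exactly; these two cocycles give the time of the passage through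
the gate as `π/s + O(1)`.  For complex `c` the iterates are compared with those of `1/4 + |c - 1/4|`,
the polynomials in `c` having nonnegative coefficients.
-/

set_option autoImplicit false

open Filter Topology Metric Set N62a1eb23 Bornology ComplexConjugate

namespace Pool.Agent.Results.MP_c6f924_an.CuspAsymptotics

open Pool.Agent.H713R2 Pool.Agent.H712R2 Pool.Agent.W677.MC Pool.Agent.X220.CU

theorem P_real (s : ℝ) (n : ℕ) : P 2 n ((1 / 4 + s ^ 2 : ℝ) : ℂ) = ((Y s n + 1 / 2 : ℝ) : ℂ) := by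
  induction n with
  | zero => rw [P_zero, Y_zero]; norm_num
  | succ n ih =>
    rw [P_succ, ih, Y_succ]
    push_cast
    ring

theorem P_le {s : ℝ} {c : ℂ} (h : ‖c‖ ≤ 1 / 4 + s ^ 2) (n : ℕ) : ‖P 2 n c‖ ≤ Y s n + 1 / 2 := by
  induction n with
  | zero => rw [P_zero, Y_zero, norm_zero]; norm_num
  | succ n ih =>
    rw [P_succ, Y_succ]
    refine (norm_add_le _ _).trans ?_
    rw [norm_pow]
    have h1 : ‖P 2 n c‖ ^ 2 ≤ (Y s n + 1 / 2) ^ 2 := pow_le_pow_left₀ (norm_nonneg _) ih 2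
    nlinarith

theorem mem_real {t : ℝ} (h0 : 0 ≤ t) (h1 : t ≤ 1 / 4) : (t : ℂ) ∈ multibrotSet 2 := by
  rw [mem_multibrot_iff le_rfl]
  have key : ∀ k, ‖P 2 k (t : ℂ)‖ ≤ 1 / 2 := by
    intro k
    induction k with
    | zero => rw [P_zero, norm_zero]; norm_num
    | succ k ih =>
      rw [P_succ]
      refine (norm_add_le _ _).trans ?_
      rw [norm_pow, Complex.norm_real, Real.norm_eq_abs, abs_of_nonneg h0]
      nlinarith [norm_nonneg (P 2 k (t : ℂ))]
  exact fun k => (key k).trans (by norm_num)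

/-! ### The exterior map is real on the real axis -/

theorem P_conj (n : ℕ) (c : ℂ) : P 2 n (conj c) = conj (P 2 n c) := by
  induction n with
  | zero => rw [P_zero, P_zero, map_zero]
  | succ n ih => rw [P_succ, P_succ, ih, map_add, map_pow]

theorem conj_mem {c : ℂ} : conj c ∈ multibrotSet 2 ↔ c ∈ multibrotSet 2 := by
  rw [mem_multibrot_iff le_rfl, mem_multibrot_iff le_rfl]
  refine forall_congr' fun k => ?_
  rw [P_conj, Complex.norm_conj]

theorem exterior_conj {ψ : ℂ → ℂ} (hψ : IsExteriorMap (multibrotSet 2) ψ) :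
    IsExteriorMap (multibrotSet 2) (conj ∘ ψ ∘ conj) := by
  have hext : IsOpen {z : ℂ | 1 < ‖z‖} := isOpen_lt continuous_const continuous_norm
  have hmem : ∀ z : ℂ, 1 < ‖z‖ → conj z ∈ {z : ℂ | 1 < ‖z‖} := by
    intro z hz
    show 1 < ‖conj z‖
    rwa [Complex.norm_conj]
  refine ⟨?_, ?_, ?_, ?_⟩
  · intro z hz
    have h1 := (hψ.diff.differentiableAt (hext.mem_nhds (hmem z hz))).star_star
    rw [← starRingEnd_apply, Complex.conj_conj] at h1
    exact DifferentiableAt.differentiableWithinAt h1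
  · intro z hz w hw h
    have h1 := hψ.inj (hmem z hz) (hmem w hw) (star_injective h)
    exact star_injective h1
  · ext c
    constructor
    · rintro ⟨z, hz, rfl⟩
      have h1 : ψ (conj z) ∈ (multibrotSet 2)ᶜ := by
        rw [← hψ.image]
        exact ⟨_, hmem z hz, rfl⟩
      exact fun h => h1 (conj_mem.1 h)
    · intro hc
      have h1 : conj c ∈ (multibrotSet 2)ᶜ := fun h => hc (conj_mem.1 h)
      rw [← hψ.image] at h1
      obtain ⟨z, hz, h2⟩ := h1
      refine ⟨conj z, hmem z hz, ?_⟩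
      simp only [Function.comp_apply, Complex.conj_conj, h2]
  · have h1 : Tendsto (fun z : ℂ => conj z) (cobounded ℂ) (cobounded ℂ) := by
      rw [← tendsto_norm_atTop_iff_cobounded]
      simp only [Complex.norm_conj]
      exact tendsto_norm_cobounded_atTop
    have h2 := (hψ.infinity.comp h1)
    have h3 := (Complex.continuous_conj.tendsto 1).comp h2
    rw [map_one] at h3
    refine h3.congr fun z => ?_
    simp only [Function.comp_apply, map_div₀, Complex.conj_conj]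

theorem psi_real {ψ : ℂ → ℂ} (hψ : IsExteriorMap (multibrotSet 2) ψ) {r : ℝ} (hr : 1 < r) :
    ψ r = ((ψ r).re : ℂ) := by
  obtain ⟨β, hβ⟩ := exists_beta (d := 2) le_rfl
  have hrn : 1 < ‖(r : ℂ)‖ := by
    rwa [Complex.norm_real, Real.norm_eq_abs, abs_of_pos (by linarith)]
  have h1 := exteriorMap_unique hβ hψ hrn
  have h2 := exteriorMap_unique hβ (exterior_conj hψ) hrn
  rw [← h1] at h2
  simp only [Function.comp_apply, Complex.conj_ofReal] at h2
  exact (Complex.conj_eq_iff_re.1 h2).symm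

theorem psi_pos {ψ : ℂ → ℂ} (hψ : IsExteriorMap (multibrotSet 2) ψ) {r : ℝ} (hr : 1 < r) :
    1 / 4 < (ψ r).re := by
  have hext : IsOpen {z : ℂ | 1 < ‖z‖} := isOpen_lt continuous_const continuous_norm
  have hn : ∀ t : ℝ, 1 < t → 1 < ‖(t : ℂ)‖ := by
    intro t ht
    rwa [Complex.norm_real, Real.norm_eq_abs, abs_of_pos (by linarith)]
  have hcont : ContinuousOn (fun t : ℝ => (ψ t).re) (Ioi 1) := by
    apply Complex.continuous_re.comp_continuousOn
    apply hψ.diff.continuousOn.comp (Complex.continuous_ofReal.continuousOn)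
    intro t ht
    exact hn t ht
  have hnm : ∀ t : ℝ, 1 < t → ψ t ∉ multibrotSet 2 := by
    intro t ht h
    have : ψ t ∈ (multibrotSet 2)ᶜ := by
      rw [← hψ.image]
      exact ⟨_, hn t ht, rfl⟩
    exact this h
  have hne : ∀ t : ℝ, 1 < t → (ψ t).re ≠ 0 := by
    intro t ht h0
    apply hnm t ht
    rw [psi_real hψ ht, h0]
    exact mem_real le_rfl (by norm_num)
  obtain ⟨R, hR1, hR2⟩ : ∃ R : ℝ, 1 < R ∧ 0 < (ψ R).re := by
    have h1 : Tendsto (fun t : ℝ => (t : ℂ)) atTop (cobounded ℂ) := by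
      rw [← tendsto_norm_atTop_iff_cobounded]
      simp only [Complex.norm_real]
      exact tendsto_norm_atTop_atTop
    have h2 := hψ.infinity.comp h1
    have h3 := (Complex.continuous_re.tendsto 1).comp h2
    have h4 := h3.eventually (lt_mem_nhds (show (0 : ℝ) < (1 : ℂ).re by simp))
    obtain ⟨R, h5, h6⟩ := (h4.and (eventually_gt_atTop 1)).exists
    refine ⟨R, h6, ?_⟩
    simp only [Function.comp_apply] at h5
    rw [psi_real hψ h6, ← Complex.ofReal_div, Complex.ofReal_re] at h5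
    have h7 := mul_pos h5 (show (0 : ℝ) < R by linarith)
    rwa [div_mul_cancel₀ _ (by linarith : R ≠ 0)] at h7
  have hpos : 0 < (ψ r).re := by
    by_contra hcon
    push Not at hcon
    obtain ⟨t, ht, h0⟩ := isPreconnected_Ioi.intermediate_value (a := r) (b := R) hr hR1 hcont
      ⟨hcon, hR2.le⟩
    exact hne t ht h0
  by_contra hcon
  push Not at hcon
  apply hnm r hr
  rw [psi_real hψ hr]
  exact mem_real hpos.le hcon

/-! ### The estimates -/

theorem lower {ψ : ℂ → ℂ} (hψ : IsExteriorMap (multibrotSet 2) ψ) {z : ℂ} (hz : 1 < ‖z‖)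
    (hz2 : ‖z‖ ≤ 2) : ψ z ≠ 1 / 4 ∧
      Real.pi * Real.log 2 / √‖ψ z - 1 / 4‖ ≤ Real.log (1 / (‖z‖ - 1)) + 30 := by
  have hne : ψ z ≠ 1 / 4 := by
    intro h
    have h1 : ψ z ∈ (multibrotSet 2)ᶜ := by
      rw [← hψ.image]
      exact ⟨_, hz, rfl⟩
    apply h1
    rw [h]
    have := mem_real (t := 1 / 4) (by norm_num) le_rfl
    simpa using this
  refine ⟨hne, ?_⟩
  obtain ⟨s, hs⟩ : ∃ s, s = √‖ψ z - 1 / 4‖ := ⟨_, rfl⟩
  have hs0 : 0 < s := by
    rw [hs, Real.sqrt_pos, norm_pos_iff, sub_ne_zero]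
    exact hne
  have hs2 : s ^ 2 = ‖ψ z - 1 / 4‖ := by rw [hs, Real.sq_sqrt (norm_nonneg _)]
  have hc : ‖ψ z‖ ≤ 1 / 4 + s ^ 2 := by
    rw [hs2]
    have h1 := norm_add_le (1 / 4 : ℂ) (ψ z - 1 / 4)
    rw [add_sub_cancel] at h1
    refine h1.trans (le_of_eq ?_)
    norm_num
  rw [← hs]
  have hl2 := Real.log_two_lt_d9
  have hl2' := Real.log_two_gt_d9
  have hzpos : 0 < ‖z‖ - 1 := by linarith
  have hL : 0 ≤ Real.log (1 / (‖z‖ - 1)) := by
    apply Real.log_nonneg
    rw [le_div_iff₀ hzpos]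
    linarith
  obtain ⟨m, hm1, hm2, hm3⟩ := exists_passage hs0
  have hp := passage_lower hs0 hm1 hm2 hm3
  have hpp : Real.pi * Real.log 2 / s ≤ (m + 16) * Real.log 2 := by
    rw [mul_div_right_comm]
    exact mul_le_mul_of_nonneg_right hp (by linarith)
  refine hpp.trans ?_
  rcases Nat.lt_or_ge m 2 with h | h
  · have : m = 1 := by omega
    rw [this]
    push_cast
    linarith
  · obtain ⟨k, rfl⟩ := Nat.exists_eq_add_of_le' h
    have h1 : ‖P 2 (k + 1) (ψ z)‖ ≤ 2 := by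
      have := P_le hc (k + 1)
      have := hm2 (k + 1) (by omega)
      linarith
    have h2 : ‖ψ z‖ ≤ 2 := by
      have h3 := P_le hc 1
      rw [P_one le_rfl] at h3
      have := hm2 1 (by omega)
      linarith
    have h3 := green_lowerG le_rfl hψ hz h2 h1
    have h4 := one_add_mul_le_pow (a := ‖z‖ - 1) (by linarith) (2 ^ k)
    rw [show 1 + (‖z‖ - 1) = ‖z‖ by ring] at h4
    have h5 : (2 : ℝ) ^ k ≤ 2 * (1 / (‖z‖ - 1)) := by
      rw [mul_one_div, le_div_iff₀ hzpos]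
      push_cast at h4
      linarith
    have h6 := Real.log_le_log (by positivity) h5
    rw [Real.log_pow, Real.log_mul (by norm_num) (by positivity)] at h6
    push_cast
    linarith

theorem upper {ψ : ℂ → ℂ} (hψ : IsExteriorMap (multibrotSet 2) ψ) {r : ℝ} (hr : 1 < r) :
    Real.log (1 / (r - 1)) ≤ Real.pi * Real.log 2 / √((ψ r).re - 1 / 4) + 30 := by
  have hpos := psi_pos hψ hr
  obtain ⟨s, hs⟩ : ∃ s, s = √((ψ r).re - 1 / 4) := ⟨_, rfl⟩
  have hs0 : 0 < s := by
    rw [hs, Real.sqrt_pos]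
    linarith
  have hs2 : s ^ 2 = (ψ r).re - 1 / 4 := by rw [hs, Real.sq_sqrt (by linarith)]
  have hψr : ψ r = ((1 / 4 + s ^ 2 : ℝ) : ℂ) := by
    rw [hs2, psi_real hψ hr, Complex.ofReal_re]
    congr 1
    ring
  rw [← hs]
  have hl2 := Real.log_two_lt_d9
  have hl2' := Real.log_two_gt_d9
  have hrn : ‖(r : ℂ)‖ = r := by
    rw [Complex.norm_real, Real.norm_eq_abs, abs_of_pos (by linarith)]
  obtain ⟨m, hm1, hm2, hm3⟩ := exists_passage hs0
  have hp := passage_upper hs0 hm1 hm2 hm3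
  have h1 := P_le_two (d := 2) le_rfl hψ (z := (r : ℂ)) (by rwa [hrn]) m
  rw [hψr, P_real, Complex.norm_real, Real.norm_eq_abs, hrn, Y_succ] at h1
  have h2 : 4 < |Y s m + Y s m ^ 2 + s ^ 2 + 1 / 2| := by
    refine lt_of_lt_of_le ?_ (le_abs_self _)
    nlinarith [sq_nonneg s]
  have h3 : 2 < r ^ (2 ^ m) := by linarith
  have h4 := Real.log_lt_log (by norm_num) h3
  rw [Real.log_pow] at h4
  push_cast at h4
  have h5 : Real.log r ≤ r - 1 := Real.log_le_sub_one_of_pos (by linarith)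
  have hr1 : 0 < r - 1 := by linarith
  have h6 : 1 / (r - 1) ≤ 2 ^ (m + 1) := by
    rw [div_le_iff₀ hr1, pow_succ]
    have : (2 : ℝ) ^ m * Real.log r ≤ 2 ^ m * (r - 1) :=
      mul_le_mul_of_nonneg_left h5 (by positivity)
    linarith
  have h7 := Real.log_le_log (by positivity) h6
  rw [Real.log_pow] at h7
  push_cast at h7
  have hpp : ((m : ℝ) + 1) * Real.log 2 ≤ (Real.pi / s + 34) * Real.log 2 :=
    mul_le_mul_of_nonneg_right (by linarith) (by linarith)
  have h8 : Real.pi * Real.log 2 / s = Real.pi / s * Real.log 2 := by rw [mul_div_right_comm]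
  rw [h8]
  linarith

/-- The equipotentials of the Mandelbrot set near the cusp. -/
theorem result :
    (∃ ψ : ℂ → ℂ, IsExteriorMap mandelbrotSet ψ) ∧
    ∀ ψ : ℂ → ℂ, IsExteriorMap mandelbrotSet ψ →
      (∀ z : ℂ, 1 < ‖z‖ → ‖z‖ ≤ 2 → ψ z ≠ 1 / 4 ∧
        Real.pi * Real.log 2 / √‖ψ z - 1 / 4‖ ≤ Real.log (1 / (‖z‖ - 1)) + 30) ∧
      (∀ r : ℝ, 1 < r → ∃ t : ℝ, 1 / 4 < t ∧ ψ r = t ∧
        (r ≤ 2 → |Real.pi * Real.log 2 / √(t - 1 / 4) - Real.log (1 / (r - 1))| ≤ 30)) ∧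
      Tendsto (fun r : ℝ => (ψ r - 1 / 4) * (Real.log (1 / (r - 1)) : ℂ) ^ 2) (𝓝[>] 1)
        (𝓝 (((Real.pi * Real.log 2) ^ 2 : ℝ) : ℂ)) := by
  obtain ⟨β, hβ⟩ := exists_beta (d := 2) le_rfl
  refine ⟨⟨_, exteriorMap_of_beta hβ⟩, ?_⟩
  intro ψ hψ
  have hboth : ∀ r : ℝ, 1 < r → r ≤ 2 →
      |Real.pi * Real.log 2 / √((ψ r).re - 1 / 4) - Real.log (1 / (r - 1))| ≤ 30 := by
    intro r hr hr2
    have hrn : ‖(r : ℂ)‖ = r := by
      rw [Complex.norm_real, Real.norm_eq_abs, abs_of_pos (by linarith)]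
    have h1 := (lower hψ (z := (r : ℂ)) (by rwa [hrn]) (by rwa [hrn])).2
    have h2 : ‖ψ r - 1 / 4‖ = (ψ r).re - 1 / 4 := by
      have hpos := psi_pos hψ hr
      rw [psi_real hψ hr, Complex.ofReal_re,
        show (((ψ r).re : ℂ) - 1 / 4) = (((ψ r).re - 1 / 4 : ℝ) : ℂ) by push_cast; ring,
        Complex.norm_real, Real.norm_eq_abs, abs_of_pos (by linarith)]
    rw [h2, hrn] at h1
    have h3 := upper hψ hr
    rw [abs_le]
    constructor <;> linarith
  refine ⟨fun z hz hz2 => lower hψ hz hz2, fun r hr => ⟨(ψ r).re, psi_pos hψ hr, psi_real hψ hr,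
    fun hr2 => hboth r hr hr2⟩, ?_⟩
  -- the limit
  have hLlim : Tendsto (fun r : ℝ => Real.log (1 / (r - 1))) (𝓝[>] 1) atTop := by
    have h1 : Tendsto (fun r : ℝ => r - 1) (𝓝[>] 1) (𝓝[>] 0) := by
      have h2 : Tendsto (fun r : ℝ => r - 1) (𝓝 1) (𝓝 0) := by
        have h4 : Continuous fun r : ℝ => r - 1 := by fun_prop
        have := h4.tendsto 1
        rwa [sub_self] at this
      apply tendsto_nhdsWithin_of_tendsto_nhds_of_eventually_within _
        (h2.mono_left nhdsWithin_le_nhds)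
      filter_upwards [self_mem_nhdsWithin] with r hr
      exact sub_pos.2 (mem_Ioi.1 hr)
    have h3 := Real.tendsto_log_atTop.comp (tendsto_inv_nhdsGT_zero.comp h1)
    refine h3.congr fun r => ?_
    simp only [Function.comp_apply, one_div]
  have hev : ∀ᶠ r : ℝ in 𝓝[>] 1, 1 < r ∧ r ≤ 2 ∧ 60 < Real.log (1 / (r - 1)) := by
    have h2 : ∀ᶠ r : ℝ in 𝓝[>] 1, r ≤ 2 :=
      nhdsWithin_le_nhds (Iic_mem_nhds (by norm_num : (1 : ℝ) < 2))
    filter_upwards [self_mem_nhdsWithin, h2, hLlim.eventually (eventually_gt_atTop 60)] with r h1 h2 h3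
    exact ⟨h1, h2, h3⟩
  have hquot : Tendsto (fun r : ℝ => Real.log (1 / (r - 1)) /
      (Real.pi * Real.log 2 / √((ψ r).re - 1 / 4))) (𝓝[>] 1) (𝓝 1) := by
    rw [tendsto_iff_norm_sub_tendsto_zero]
    have h0 : Tendsto (fun r : ℝ => 60 / Real.log (1 / (r - 1))) (𝓝[>] 1) (𝓝 0) :=
      tendsto_const_nhds.div_atTop hLlim
    refine squeeze_zero' (Eventually.of_forall fun r => norm_nonneg _) ?_ h0
    filter_upwards [hev] with r hr
    obtain ⟨h1, h2, h3⟩ := hr
    have h4 := abs_le.1 (hboth r h1 h2)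
    obtain ⟨A, hA⟩ : ∃ A, A = Real.pi * Real.log 2 / √((ψ r).re - 1 / 4) := ⟨_, rfl⟩
    obtain ⟨L, hL⟩ : ∃ L, L = Real.log (1 / (r - 1)) := ⟨_, rfl⟩
    rw [← hA, ← hL] at h4 ⊢
    rw [← hL] at h3
    have hA0 : 0 < A := by linarith
    have hL0 : 0 < L := by linarith
    rw [div_sub_one hA0.ne', norm_div, Real.norm_eq_abs, Real.norm_eq_abs, abs_of_pos hA0,
      div_le_div_iff₀ hA0 hL0]
    have h5 : |L - A| ≤ 30 := abs_le.2 ⟨by linarith, by linarith⟩
    nlinarith
  have hreal : Tendsto (fun r : ℝ => ((ψ r).re - 1 / 4) * Real.log (1 / (r - 1)) ^ 2) (𝓝[>] 1)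
      (𝓝 ((Real.pi * Real.log 2) ^ 2)) := by
    have h1 := (hquot.pow 2).const_mul ((Real.pi * Real.log 2) ^ 2)
    rw [one_pow, mul_one] at h1
    refine h1.congr' ?_
    filter_upwards [hev] with r hr
    have hpos := psi_pos hψ hr.1
    have hsq : 0 < √((ψ r).re - 1 / 4) := Real.sqrt_pos.2 (by linarith)
    have hsq2 : √((ψ r).re - 1 / 4) ^ 2 = (ψ r).re - 1 / 4 := Real.sq_sqrt (by linarith)
    have hl : 0 < Real.log 2 := Real.log_pos (by norm_num)
    have hpi := Real.pi_pos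
    obtain ⟨u, hu⟩ : ∃ u, u = √((ψ r).re - 1 / 4) := ⟨_, rfl⟩
    obtain ⟨L, hL⟩ : ∃ L, L = Real.log (1 / (r - 1)) := ⟨_, rfl⟩
    rw [← hu] at hsq hsq2 ⊢
    rw [← hsq2, ← hL]
    field_simp
  have hcomp := (Complex.continuous_ofReal.tendsto _).comp hreal
  refine hcomp.congr' ?_
  filter_upwards [self_mem_nhdsWithin] with r hr
  have h1 := psi_real hψ (mem_Ioi.1 hr)
  simp only [Function.comp_apply]
  rw [h1, Complex.ofReal_re]
  push_cast
  ring

end Pool.Agent.Results.MP_c6f924_an.CuspAsymptotics
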