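import Mathlib
import Pool.Prelude.Def_F_c31e40fa
import Pool.Agent.W677.MC8
import Pool.Agent.W677.MB11

/-!
# The distance of the equipotentials of the Mandelbrot set to the point `-3/4`

Let `M_d` be the Multibrot set of degree `d` (`M_2` is the Mandelbrot set), and let `ψ` be its exterior
map, the normalised conformal map of `{|z| > 1}` onto the complement of `M_d`.  The curves
`ψ {|z| = r}`, `r > 1`, are the equipotentials.  Let `c₁ = α - α ^ d` where `d α ^ (d - 1) = -1`: the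
parameters for which `z ^ d + c₁` has a fixed point of multiplier `-1`, the roots of the components of
period two which are attached to the main component; for `d = 2` this is `c₁ = -3/4`.

The distance of `c₁` to the equipotential of `r` is of exact order `1 / (1 + log (1 / (r - 1)))` for
`1 < r ≤ 2`.  Consequently, if `M_d` is locally connected, so that `ψ` extends continuously to
`{|z| ≥ 1}`, then the extension `F` takes the value `c₁` at a point `ζ` of the unit circle, and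
`|F z - F ζ| ≥ a / (1 + log (1 / (|z| - 1)))` for all `1 < |z| ≤ 2`: no modulus of continuity of the
exterior map is better than `1 / log`, in particular it is not Hölder continuous.

The two estimates for the dynamics (slow escape near `c₁`, and the passage through the gate) are in
`Pool.Agent.W677.MC4` and `Pool.Agent.W677.MC8`.
-/

set_option autoImplicit false

open Filter Topology Metric Set N62a1eb23 Bornology

namespace Pool.Agent.Results.MP_c6f924_an.EquipotentialsAtRoots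

open Pool.Agent.H713R2 Pool.Agent.H712R2 Pool.Agent.W677.MC

/-- The distance of a point of the Multibrot set to the equipotentials increases with the level. -/
theorem circle_min {d : ℕ} (hd : 2 ≤ d) {ψ : ℂ → ℂ} (hψ : IsExteriorMap (multibrotSet d) ψ) {c : ℂ}
    (hc : c ∈ multibrotSet d) {r : ℝ} (hr : 1 < r) {w : ℂ} (hw : r ≤ ‖w‖) :
    ∃ z : ℂ, ‖z‖ = r ∧ ‖ψ z - c‖ ≤ ‖ψ w - c‖ := by
  obtain ⟨β, hβ⟩ := exists_beta (d := d) hd
  have hne : ∀ x ∈ ball (0 : ℂ) 1, β x - c * x ≠ 0 := by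
    intro x hx h0
    rcases eq_or_ne x 0 with rfl | hx0
    · rw [mul_zero, sub_zero, hβ.zero] at h0
      exact one_ne_zero h0
    · apply hβ.notMem x hx hx0
      have : x⁻¹ * β x = c := by
        rw [sub_eq_zero.1 h0]
        field_simp
      rwa [this]
  have hdiff : DifferentiableOn ℂ (fun x => x / (β x - c * x)) (ball 0 1) :=
    differentiableOn_id.div (hβ.diff.sub (by fun_prop)) hne
  have hr0 : 0 < r⁻¹ := by positivity
  have hr1 : r⁻¹ < 1 := inv_lt_one_of_one_lt₀ hr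
  have hsub : closedBall (0 : ℂ) r⁻¹ ⊆ ball 0 1 := closedBall_subset_ball hr1
  have hcont : ContinuousOn (fun x => ‖x / (β x - c * x)‖) (sphere (0 : ℂ) r⁻¹) :=
    ((hdiff.continuousOn.mono hsub).mono sphere_subset_closedBall).norm
  obtain ⟨x₁, hx₁, hmax⟩ := (isCompact_sphere (0 : ℂ) r⁻¹).exists_isMaxOn
    (NormedSpace.sphere_nonempty.2 hr0.le) hcont
  have hval : ∀ z : ℂ, 1 < ‖z‖ → ‖z⁻¹ / (β z⁻¹ - c * z⁻¹)‖ = ‖ψ z - c‖⁻¹ := by
    intro z hz
    have hz0 : z ≠ 0 := by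
      rintro rfl
      rw [norm_zero] at hz
      linarith
    rw [exteriorMap_unique hβ hψ hz, ← norm_inv]
    congr 1
    rw [div_eq_mul_inv, ← mul_inv, show z * β z⁻¹ - c = z * (β z⁻¹ - c * z⁻¹) by field_simp]
  have hdc : DiffContOnCl ℂ (fun x => x / (β x - c * x)) (ball 0 r⁻¹) :=
    (hdiff.mono hsub).diffContOnCl_ball (subset_refl _)
  have hw1 : 1 < ‖w‖ := hr.trans_le hw
  have hwin : w⁻¹ ∈ closure (ball (0 : ℂ) r⁻¹) := by
    rw [closure_ball _ hr0.ne', mem_closedBall_zero_iff, norm_inv]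
    exact inv_anti₀ (by linarith) hw
  have hle := Complex.norm_le_of_forall_mem_frontier_norm_le isBounded_ball hdc
    (C := ‖x₁ / (β x₁ - c * x₁)‖) (fun z hz => by
      rw [frontier_ball _ hr0.ne'] at hz
      exact hmax hz) hwin
  have hx₁n : ‖x₁‖ = r⁻¹ := mem_sphere_zero_iff_norm.1 hx₁
  refine ⟨x₁⁻¹, by rw [norm_inv, hx₁n, inv_inv], ?_⟩
  have h1 := hval x₁⁻¹ (by rw [norm_inv, hx₁n, inv_inv]; exact hr)
  rw [inv_inv] at h1
  rw [h1, hval w hw1] at hle
  have hpos : ∀ z : ℂ, 1 < ‖z‖ → 0 < ‖ψ z - c‖ := by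
    intro z hz
    rw [norm_pos_iff, sub_ne_zero]
    intro h
    have : ψ z ∈ (multibrotSet d)ᶜ := by
      rw [← hψ.image]
      exact ⟨z, hz, rfl⟩
    rw [h] at this
    exact this hc
  exact (inv_le_inv₀ (hpos w hw1) (hpos _ (by rw [norm_inv, hx₁n, inv_inv]; exact hr))).1 hle

/-- The order of the distance to the equipotentials and the modulus of continuity of the exterior
map. -/
theorem result (d : ℕ) (hd : 2 ≤ d) (α : ℂ) (hα : (d : ℂ) * α ^ (d - 1) = -1) :
    (∃ ψ : ℂ → ℂ, IsExteriorMap (multibrotSet d) ψ) ∧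
    ∃ a b : ℝ, 0 < a ∧ 0 < b ∧ ∀ ψ : ℂ → ℂ, IsExteriorMap (multibrotSet d) ψ →
      (∀ r : ℝ, 1 < r → r ≤ 2 →
        (∀ z : ℂ, ‖z‖ = r → a / (1 + Real.log (1 / (r - 1))) ≤ ‖ψ z - (α - α ^ d)‖) ∧
        ∃ z : ℂ, ‖z‖ = r ∧ ‖ψ z - (α - α ^ d)‖ ≤ b / (1 + Real.log (1 / (r - 1)))) ∧
      ∀ F : ℂ → ℂ, ContinuousOn F {z | 1 ≤ ‖z‖} → EqOn F ψ {z | 1 < ‖z‖} →
        ∃ ζ : ℂ, ‖ζ‖ = 1 ∧ F ζ = α - α ^ d ∧ ∀ z : ℂ, 1 < ‖z‖ → ‖z‖ ≤ 2 →
          a / (1 + Real.log (1 / (‖z‖ - 1))) ≤ ‖F z - F ζ‖ := by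
  obtain ⟨β, hβ⟩ := exists_beta (d := d) hd
  refine ⟨⟨_, exteriorMap_of_beta hβ⟩, ?_⟩
  have hdr : (2 : ℝ) ≤ d := by exact_mod_cast hd
  have hd0 : (d : ℂ) ≠ 0 := by
    have : d ≠ 0 := by omega
    exact_mod_cast this
  have hA : α ^ (d - 1) = -1 / d := by
    rw [eq_div_iff hd0, mul_comm]
    exact hα
  have hcc : cc d α 0 = α - α ^ d := by
    unfold cc
    rw [add_zero]
  obtain ⟨a, ρ₀, ha, hρ₀, hdist⟩ := distG hd hA
  obtain ⟨C, hC, hnear⟩ := nearG hd hA
  rw [hcc] at hdist hnear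
  have hmem : α - α ^ d ∈ multibrotSet d := by
    rw [← hcc]
    exact mem0 hd hA
  refine ⟨a, C + 1 + (1 + C) * (4 + ‖α - α ^ d‖), ha, by positivity, ?_⟩
  intro ψ hψ
  obtain ⟨-, hlow⟩ := hdist ψ hψ
  have hlogpos : ∀ r : ℝ, 1 < r → r ≤ 2 → 0 ≤ Real.log (1 / (r - 1)) := by
    intro r hr hr2
    apply Real.log_nonneg
    rw [le_div_iff₀ (by linarith)]
    linarith
  have hlower : ∀ z : ℂ, 1 < ‖z‖ → ‖z‖ ≤ 2 →
      a / (1 + Real.log (1 / (‖z‖ - 1))) ≤ ‖ψ z - (α - α ^ d)‖ := by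
    intro z hz hz2
    have h1 := hlogpos _ hz hz2
    rw [div_le_iff₀ (by linarith)]
    exact hlow z hz hz2
  have hupper : ∀ r : ℝ, 1 < r → r ≤ 2 → ∃ z : ℂ, ‖z‖ = r ∧
      ‖ψ z - (α - α ^ d)‖ ≤ (C + 1 + (1 + C) * (4 + ‖α - α ^ d‖)) /
        (1 + Real.log (1 / (r - 1))) := by
    intro r hr hr2
    have hl := hlogpos r hr hr2
    obtain ⟨L, hL⟩ : ∃ L, L = Real.log (1 / (r - 1)) := ⟨_, rfl⟩
    rw [← hL] at hl ⊢
    rcases le_or_gt C L with h | h
    · have hL0 : 0 < L := hC.trans_le h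
      obtain ⟨w, hw1, hw2, hw3⟩ := hnear ψ hψ (C / L) (by positivity)
        (by rw [div_le_one hL0]; exact h)
      rw [div_div_cancel₀ hC.ne', hL] at hw3
      have hrw : r ≤ ‖w‖ := by
        have h1 := (Real.log_le_log_iff (by
          have : 0 < ‖w‖ - 1 := by linarith
          positivity) (by
          have : 0 < r - 1 := by linarith
          positivity)).1 hw3
        rw [one_div_le_one_div (by linarith) (by linarith)] at h1
        linarith
      obtain ⟨z, hz1, hz2⟩ := circle_min hd hψ hmem hr hrw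
      refine ⟨z, hz1, hz2.trans (hw2.trans ?_)⟩
      rw [div_le_div_iff₀ hL0 (by linarith)]
      have h2 : 0 ≤ (1 + C) * (4 + ‖α - α ^ d‖) * L := by positivity
      nlinarith
    · refine ⟨r, by rw [Complex.norm_real, Real.norm_eq_abs, abs_of_pos (by linarith)], ?_⟩
      have hrn : ‖(r : ℂ)‖ = r := by
        rw [Complex.norm_real, Real.norm_eq_abs, abs_of_pos (by linarith)]
      have h1 := P_le_two hd hψ (z := (r : ℂ)) (by rw [hrn]; exact hr) 0
      rw [P_one hd, pow_zero, pow_one, hrn] at h1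
      have h2 : ‖ψ r - (α - α ^ d)‖ ≤ 4 + ‖α - α ^ d‖ := by
        refine (norm_sub_le _ _).trans ?_
        linarith
      rw [le_div_iff₀ (by linarith)]
      have h3 : ‖ψ r - (α - α ^ d)‖ * (1 + L) ≤ (4 + ‖α - α ^ d‖) * (1 + C) :=
        mul_le_mul h2 (by linarith) (by linarith) (by positivity)
      nlinarith
  refine ⟨fun r hr hr2 => ⟨fun z hz => ?_, hupper r hr hr2⟩, ?_⟩
  · have := hlower z (by rw [hz]; exact hr) (by rw [hz]; exact hr2)
    rwa [hz] at this
  intro F hF hE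
  -- points of the equipotentials which tend to `c₁`
  have hex : ∀ k : ℕ, ∃ z : ℂ, ‖z‖ = 1 + 1 / ((k : ℝ) + 1) ∧
      ‖ψ z - (α - α ^ d)‖ ≤ (C + 1 + (1 + C) * (4 + ‖α - α ^ d‖)) / (1 + Real.log (k + 1)) := by
    intro k
    have hk : (0 : ℝ) < (k : ℝ) + 1 := by positivity
    have hk1 : 1 / ((k : ℝ) + 1) ≤ 1 := by
      rw [div_le_one hk]
      linarith [(Nat.cast_nonneg k : (0 : ℝ) ≤ k)]
    obtain ⟨z, h1, h2⟩ := hupper (1 + 1 / ((k : ℝ) + 1)) (by
      have : 0 < 1 / ((k : ℝ) + 1) := by positivity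
      linarith) (by linarith)
    refine ⟨z, h1, ?_⟩
    rwa [add_sub_cancel_left, one_div_one_div] at h2
  choose z hz1 hz2 using hex
  have hzlim : Tendsto (fun k => ‖z k‖) atTop (𝓝 1) := by
    have h1 : Tendsto (fun k : ℕ => 1 + 1 / ((k : ℝ) + 1)) atTop (𝓝 (1 + 0)) :=
      tendsto_const_nhds.add tendsto_one_div_add_atTop_nhds_zero_nat
    rw [add_zero] at h1
    exact h1.congr fun k => (hz1 k).symm
  have hψlim : Tendsto (fun k => ψ (z k)) atTop (𝓝 (α - α ^ d)) := by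
    rw [tendsto_iff_norm_sub_tendsto_zero]
    apply squeeze_zero (fun k => norm_nonneg _) hz2
    apply Tendsto.div_atTop tendsto_const_nhds
    apply tendsto_atTop_add_const_left
    exact Real.tendsto_log_atTop.comp
      (tendsto_atTop_add_const_right _ _ tendsto_natCast_atTop_atTop)
  have hgt : ∀ k, 1 < ‖z k‖ := by
    intro k
    rw [hz1]
    have : 0 < 1 / ((k : ℝ) + 1) := by positivity
    linarith
  have hle2 : ∀ k, ‖z k‖ ≤ 2 := by
    intro k
    rw [hz1]
    have : 1 / ((k : ℝ) + 1) ≤ 1 := by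
      rw [div_le_one (by positivity)]
      linarith [(Nat.cast_nonneg k : (0 : ℝ) ≤ k)]
    linarith
  have hK : IsCompact ({w : ℂ | 1 ≤ ‖w‖} ∩ closedBall 0 2) := by
    apply (isCompact_closedBall (0 : ℂ) 2).inter_left
    exact isClosed_le continuous_const continuous_norm
  obtain ⟨ζ, hζ, φ, hφ, hlim⟩ := hK.tendsto_subseq (x := z) (fun k => ⟨(hgt k).le, by
    rw [mem_closedBall_zero_iff]
    exact hle2 k⟩)
  have hζ1 : ‖ζ‖ = 1 := tendsto_nhds_unique hlim.norm (hzlim.comp hφ.tendsto_atTop)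
  have h1 : Tendsto (fun k => F (z (φ k))) atTop (𝓝 (F ζ)) := by
    have h2 := (hF ζ hζ.1).tendsto
    refine h2.comp ?_
    rw [tendsto_nhdsWithin_iff]
    exact ⟨hlim, Eventually.of_forall fun k => (hgt _).le⟩
  have h2 : F ζ = α - α ^ d := by
    refine tendsto_nhds_unique h1 ((hψlim.comp hφ.tendsto_atTop).congr fun k => ?_)
    exact (hE (hgt (φ k))).symm
  refine ⟨ζ, hζ1, h2, fun w hw hw2 => ?_⟩
  rw [h2, hE hw]
  exact hlower w hw hw2

end Pool.Agent.Results.MP_c6f924_an.EquipotentialsAtRoots
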