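import Mathlib
import Pool.Prelude.Def_F_c31e40fa
import Pool.Agent.W677.MC8
import Pool.Agent.Results.MP_c6f924_an.EquipotentialsAtRoots
import Pool.Agent.X220.PT.Exit

/-!
# The equipotentials of the Mandelbrot set near the point `-3/4`

Let `ψ` be the exterior map of the Mandelbrot set `M`, the normalised conformal map of `{|z| > 1}` onto
the complement of `M`, and let `D r` be the distance of the point `-3/4` (the root of the component of
period two) to the equipotential `ψ {|z| = r}`.  Then `D r * log (1 / (r - 1)) → π log 2` as `r → 1`.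

The proof.  Let `c = -3/4 + κ - κ² / 4`; then `z² + c` has a fixed point `α` of multiplier `κ - 1`.  Let
`u_n = z_n - α` for the critical orbit `z_n` and `G_n = (u_n² + κ (1 + u_n)) / u_n²`.  The numerator is the
polynomial whose roots are the two points of the bifurcating cycle, so `G_n` is an exact multiplicative
cocycle: `G_{n+1} = G_n (1 + κ E(κ, u_n))` with `E` close to `2`.

* If `2 |κ| n ≤ 2 π - η` then `G_n` is close to `exp (2 κ n)` and this is at distance at least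
  `const |κ| n` from `1`, so that `|u_n| ≤ const / √n`: no point can escape before the time `(π - η) / |κ|`.
* If no orbit escapes for `|κ| ≤ δ` before the time `N = (π + η) / δ`, then by the three circles theorem
  the orbits are still small until the time `N` when `|κ|` is a bit smaller than `δ`, so that
  `G_N` is close to `exp (2 κ N)` near `κ = π i / N`, and takes the value `1` there, which
  means `u_N = -1`, a contradiction.
-/

set_option autoImplicit false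

open Filter Topology Metric Set N62a1eb23 Bornology

namespace Pool.Agent.Results.MP_c6f924_an.PiAtPeriodTwoRoot

open Pool.Agent.H713R2 Pool.Agent.H712R2 Pool.Agent.W677.MC Pool.Agent.X220.PT

/-! ### The parameter `κ` -/

theorem P_eq (κ : ℂ) (n : ℕ) : P 2 n (-3 / 4 + κ - κ ^ 2 / 4) = U κ n + (κ - 1) / 2 := by
  induction n with
  | zero => rw [P_zero, U_zero]; ring
  | succ n ih =>
    rw [P_succ, ih, U_succ]
    ring

theorem exists_kappa {c : ℂ} {t : ℝ} (ht0 : 0 < t) (ht1 : t ≤ 1) (hc : ‖c + 3 / 4‖ ≤ t ^ 2) :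
    ∃ κ : ℂ, c = -3 / 4 + κ - κ ^ 2 / 4 ∧ ‖κ‖ ≤ ‖c + 3 / 4‖ * (1 + t) := by
  obtain ⟨s₀, hs₀⟩ := IsAlgClosed.exists_pow_nat_eq (1 - (c + 3 / 4)) (n := 2) (by norm_num)
  obtain ⟨s, hs, hle⟩ : ∃ s : ℂ, s ^ 2 = 1 - (c + 3 / 4) ∧ ‖1 - s‖ ≤ ‖1 + s‖ := by
    rcases le_total ‖1 - s₀‖ ‖1 + s₀‖ with h | h
    · exact ⟨s₀, hs₀, h⟩
    · refine ⟨-s₀, by rw [neg_sq, hs₀], ?_⟩
      rwa [sub_neg_eq_add, ← sub_eq_add_neg]
  have hprod : ‖1 - s‖ * ‖1 + s‖ = ‖c + 3 / 4‖ := by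
    rw [← norm_mul]
    congr 1
    linear_combination -hs
  have h1 : ‖1 - s‖ ≤ t := by
    apply le_of_sq_le_sq _ ht0.le
    nlinarith [norm_nonneg (1 - s)]
  have h2 : 2 - t ≤ ‖1 + s‖ := by
    have := norm_sub_le (1 + s + (1 - s)) (1 - s)
    rw [add_sub_cancel_right, show (1 + s + (1 - s) : ℂ) = 2 by ring] at this
    have h3 := norm_add_le (1 + s) (1 - s)
    rw [show (1 + s + (1 - s) : ℂ) = 2 by ring] at h3
    have h4 : ‖(2 : ℂ)‖ = 2 := by norm_num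
    linarith
  refine ⟨2 - 2 * s, ?_, ?_⟩
  · linear_combination hs
  · rw [← hprod, show (2 - 2 * s : ℂ) = 2 * (1 - s) by ring, norm_mul]
    have h4 : ‖(2 : ℂ)‖ = 2 := by norm_num
    rw [h4]
    have h5 : 2 ≤ ‖1 + s‖ * (1 + t) := by nlinarith
    have := mul_le_mul_of_nonneg_left h5 (norm_nonneg (1 - s))
    linarith

/-- slow escape near `-3/4` -/
theorem slow {η : ℝ} (hη : 0 < η) (hη1 : η < 1) : ∃ δ : ℝ, 0 < δ ∧ δ ≤ 1 ∧ ∀ c : ℂ,
    ‖c + 3 / 4‖ < δ → ∀ n : ℕ, n * ‖c + 3 / 4‖ ≤ Real.pi - η → ‖P 2 n c‖ ≤ 2 := by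
  obtain ⟨A, δA, hA, hδA, hδA1, hst⟩ := stable hη hη1
  have hpi4 := Real.pi_le_four
  refine ⟨min (δA / 2) ((η / 8) ^ 2), by positivity, (min_le_left _ _).trans (by linarith), ?_⟩
  intro c hc n hn
  have hc1 := hc.trans_le (min_le_left _ _)
  have hc2 := hc.trans_le (min_le_right _ _)
  obtain ⟨κ, hκ, hκ'⟩ := exists_kappa (t := η / 8) (by positivity) (by linarith) hc2.le
  have h0 := norm_nonneg (c + 3 / 4)
  have h1 : ‖κ‖ < δA := by nlinarith
  have h2 : 2 * ‖κ‖ * n ≤ 2 * Real.pi - η := by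
    have h3 : ‖κ‖ * n ≤ ‖c + 3 / 4‖ * (1 + η / 8) * n :=
      mul_le_mul_of_nonneg_right hκ' (Nat.cast_nonneg n)
    have h4 : n * ‖c + 3 / 4‖ * (1 + η / 8) ≤ (Real.pi - η) * (1 + η / 8) :=
      mul_le_mul_of_nonneg_right hn (by positivity)
    nlinarith
  have h3 := (hst κ h1 n h2).2
  rw [hκ, P_eq]
  refine (norm_add_le _ _).trans ?_
  have h4 : ‖(κ - 1) / 2‖ ≤ 1 := by
    rw [norm_div]
    have h5 := norm_sub_le κ 1
    rw [norm_one] at h5
    have h6 : ‖(2 : ℂ)‖ = 2 := by norm_num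
    rw [h6, div_le_iff₀ (by norm_num)]
    linarith
  linarith

/-- escape near `-3/4` -/
theorem fast {η : ℝ} (hη : 0 < η) (hη1 : η < 1) : ∃ δ₀ : ℝ, 0 < δ₀ ∧ ∀ δ : ℝ, 0 < δ → δ < δ₀ →
    ∃ c : ℂ, ‖c + 3 / 4‖ ≤ δ * (1 + δ) ∧ ∃ k : ℕ, k * δ ≤ Real.pi + η ∧ 12 / 5 < ‖P 2 k c‖ := by
  obtain ⟨δ₀, hδ₀, h⟩ := exit hη hη1
  refine ⟨min δ₀ (1 / 10), by positivity, ?_⟩
  intro δ hδ hδ1
  have hd2 : δ < 1 / 10 := hδ1.trans_le (min_le_right _ _)
  obtain ⟨κ, hκ, k, hk, hU⟩ := h δ hδ (hδ1.trans_le (min_le_left _ _))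
  refine ⟨-3 / 4 + κ - κ ^ 2 / 4, ?_, k, hk, ?_⟩
  · rw [show (-3 / 4 + κ - κ ^ 2 / 4 + 3 / 4 : ℂ) = κ * (1 - κ / 4) by ring, norm_mul]
    apply mul_le_mul hκ _ (norm_nonneg _) hδ.le
    refine (norm_sub_le _ _).trans ?_
    rw [norm_one, norm_div]
    have h6 : ‖(4 : ℂ)‖ = 4 := by norm_num
    rw [h6]
    linarith [norm_nonneg κ]
  · rw [P_eq]
    have h4 : ‖(κ - 1) / 2‖ ≤ 11 / 20 := by
      rw [norm_div]
      have h5 := norm_sub_le κ 1
      rw [norm_one] at h5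
      have h6 : ‖(2 : ℂ)‖ = 2 := by norm_num
      rw [h6, div_le_iff₀ (by norm_num)]
      linarith
    have h5 := norm_sub_le (U κ k + (κ - 1) / 2) ((κ - 1) / 2)
    rw [add_sub_cancel_right] at h5
    linarith

theorem mem_root : (-3 / 4 : ℂ) ∈ multibrotSet 2 := by
  have h1 : ((-1 / 2 : ℂ)) ^ (2 - 1) = -1 / (2 : ℕ) := by norm_num
  have h2 := mem0 (d := 2) le_rfl h1
  have h3 : cc 2 (-1 / 2) 0 = -3 / 4 := by
    unfold cc
    norm_num
  rwa [h3] at h2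

/-! ### The equipotentials -/

variable {ψ : ℂ → ℂ}

theorem lower (hψ : IsExteriorMap (multibrotSet 2) ψ) {η : ℝ} (hη : 0 < η) (hη1 : η < 1) :
    ∃ r₀ : ℝ, 1 < r₀ ∧ ∀ z : ℂ, 1 < ‖z‖ → ‖z‖ < r₀ →
      (Real.pi - 2 * η) * Real.log 2 ≤ ‖ψ z + 3 / 4‖ * Real.log (1 / (‖z‖ - 1)) := by
  have hpi := Real.pi_gt_three
  have hpi4 := Real.pi_le_four
  have hl2 := Real.log_two_lt_d9
  have hl2' := Real.log_two_gt_d9
  obtain ⟨δ, hδ, hδ1, hslow⟩ := slow hη hη1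
  obtain ⟨L₀, hL₀⟩ : ∃ L₀, L₀ = 16 / η + 4 / δ + 1 := ⟨_, rfl⟩
  have h16 : 0 < 16 / η := by positivity
  have h4d : 0 < 4 / δ := by positivity
  refine ⟨1 + Real.exp (-L₀), by linarith [Real.exp_pos (-L₀)], ?_⟩
  intro z hz hz1
  have hz1' : ‖z‖ - 1 < Real.exp (-L₀) := by linarith
  have hzpos : 0 < ‖z‖ - 1 := by linarith
  obtain ⟨L, hL⟩ : ∃ L, L = Real.log (1 / (‖z‖ - 1)) := ⟨_, rfl⟩
  have hexpL : Real.exp L = 1 / (‖z‖ - 1) := by rw [hL, Real.exp_log (by positivity)]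
  have hLL : L₀ < L := by
    rw [← Real.exp_lt_exp, hexpL, lt_div_iff₀ hzpos]
    have h1 := mul_lt_mul_of_pos_left hz1' (Real.exp_pos L₀)
    rwa [← Real.exp_add, add_neg_cancel, Real.exp_zero] at h1
  have hz2 : ‖z‖ ≤ 2 := by
    have : Real.exp (-L₀) ≤ 1 := by
      rw [Real.exp_le_one_iff]
      linarith
    linarith
  rw [← hL]
  by_contra hcon
  push Not at hcon
  obtain ⟨x, hx⟩ : ∃ x, x = ‖ψ z + 3 / 4‖ := ⟨_, rfl⟩
  rw [← hx] at hcon
  have hx0 : 0 < x := by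
    rw [hx, norm_pos_iff]
    intro h
    have h1 : ψ z ∈ (multibrotSet 2)ᶜ := by
      rw [← hψ.image]
      exact ⟨z, hz, rfl⟩
    rw [show ψ z = -3 / 4 by linear_combination h] at h1
    exact h1 mem_root
  have hLpos : 0 < L := by linarith
  have hxδ : x < δ := by
    have h1 : x * L < 4 := by nlinarith
    have h2 : 4 < δ * L := by
      have h3 : 4 / δ < L := by linarith
      rw [div_lt_iff₀ hδ] at h3
      linarith
    exact lt_of_mul_lt_mul_right (h1.trans h2) hLpos.le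
  obtain ⟨n, hn⟩ : ∃ n : ℕ, n = ⌊(Real.pi - η) / x⌋₊ := ⟨_, rfl⟩
  have hn1 : (n : ℝ) * x ≤ Real.pi - η := by
    have := Nat.floor_le (div_nonneg (by linarith) hx0.le : 0 ≤ (Real.pi - η) / x)
    rw [← hn, le_div_iff₀ hx0] at this
    exact this
  have hn2 : Real.pi - η < (n + 1) * x := by
    have := Nat.lt_floor_add_one ((Real.pi - η) / x)
    rw [← hn, div_lt_iff₀ hx0] at this
    exact this
  obtain ⟨m, rfl⟩ : ∃ m, n = m + 1 := by
    apply Nat.exists_eq_add_of_le'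
    by_contra h
    have h0 : n = 0 := by omega
    rw [h0] at hn2
    push_cast at hn2
    linarith
  have hP1 : ‖ψ z‖ ≤ 2 := by
    have h1 := norm_sub_le (ψ z + 3 / 4) (3 / 4)
    rw [add_sub_cancel_right, ← hx] at h1
    have h2 : ‖(3 / 4 : ℂ)‖ = 3 / 4 := by norm_num
    linarith
  have hPn : ‖P 2 (m + 1) (ψ z)‖ ≤ 2 := hslow (ψ z) (by rw [← hx]; exact hxδ) (m + 1)
    (by rw [← hx]; exact hn1)
  have h3 := green_lowerG le_rfl hψ hz hP1 hPn
  have h4 := one_add_mul_le_pow (a := ‖z‖ - 1) (by linarith) (2 ^ m)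
  rw [show 1 + (‖z‖ - 1) = ‖z‖ by ring] at h4
  have h5 : (2 : ℝ) ^ m ≤ 2 * (1 / (‖z‖ - 1)) := by
    rw [mul_one_div, le_div_iff₀ hzpos]
    push_cast at h4
    linarith
  have h6 := Real.log_le_log (by positivity) h5
  rw [Real.log_pow, Real.log_mul (by norm_num) (by positivity), ← hL] at h6
  push_cast at hn2
  -- `(m + 2) x > π - η`, `m log 2 ≤ L + 1`, `x L < (π - 2 η) log 2`
  have h7 : (Real.pi - η) * L < ((m : ℝ) + 1 + 1) * (x * L) := by
    have := mul_lt_mul_of_pos_right hn2 hLpos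
    linarith
  have h8 : ((m : ℝ) + 1 + 1) * (x * L) ≤ ((m : ℝ) + 1 + 1) * ((Real.pi - 2 * η) * Real.log 2) :=
    mul_le_mul_of_nonneg_left hcon.le (by positivity)
  have h9 : ((m : ℝ) + 1 + 1) * Real.log 2 ≤ L + 3 := by linarith
  have h10 : (Real.pi - 2 * η) * (((m : ℝ) + 1 + 1) * Real.log 2) ≤ (Real.pi - 2 * η) * (L + 3) :=
    mul_le_mul_of_nonneg_left h9 (by linarith)
  have h11 : η * L ≤ 12 := by nlinarith
  have h12 : 16 < η * L := by
    have h13 : 16 / η < L := by linarith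
    rw [div_lt_iff₀ hη] at h13
    linarith
  linarith

theorem upper (hψ : IsExteriorMap (multibrotSet 2) ψ) {η : ℝ} (hη : 0 < η) (hη1 : η < 1) :
    ∃ r₀ : ℝ, 1 < r₀ ∧ ∀ r : ℝ, 1 < r → r < r₀ → ∃ z : ℂ, ‖z‖ = r ∧
      ‖ψ z + 3 / 4‖ * Real.log (1 / (r - 1)) ≤ (Real.pi + 2 * η) * Real.log 2 := by
  have hpi := Real.pi_gt_three
  have hpi4 := Real.pi_le_four
  have hl2 := Real.log_two_lt_d9
  have hl2' := Real.log_two_gt_d9
  obtain ⟨δ₀, hδ₀, hfast⟩ := fast hη hη1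
  obtain ⟨L₀, hL₀⟩ : ∃ L₀, L₀ = 100 / η + 5 / δ₀ + 4 := ⟨_, rfl⟩
  have h16 : 0 < 100 / η := by positivity
  have h4d : 0 < 5 / δ₀ := by positivity
  refine ⟨1 + Real.exp (-L₀), by linarith [Real.exp_pos (-L₀)], ?_⟩
  intro r hr hr1
  have hrpos : 0 < r - 1 := by linarith
  obtain ⟨L, hL⟩ : ∃ L, L = Real.log (1 / (r - 1)) := ⟨_, rfl⟩
  have hexpL : Real.exp L = 1 / (r - 1) := by rw [hL, Real.exp_log (by positivity)]
  have hLL : L₀ < L := by
    rw [← Real.exp_lt_exp, hexpL, lt_div_iff₀ hrpos]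
    have h1 := mul_lt_mul_of_pos_left (show r - 1 < Real.exp (-L₀) by linarith) (Real.exp_pos L₀)
    rwa [← Real.exp_add, add_neg_cancel, Real.exp_zero] at h1
  rw [← hL]
  have hL2 : 0 < L - 2 := by linarith
  obtain ⟨δ, hδdef⟩ : ∃ δ, δ = (Real.pi + η) * Real.log 2 / (L - 2) := ⟨_, rfl⟩
  have hlog2 : 0 < Real.log 2 := by linarith
  have hδ : 0 < δ := by rw [hδdef]; positivity
  have hδL : δ * (L - 2) = (Real.pi + η) * Real.log 2 := by
    rw [hδdef, div_mul_cancel₀ _ hL2.ne']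
  have hδ4 : δ * (L - 2) ≤ 5 := by rw [hδL]; nlinarith
  have hδδ₀ : δ < δ₀ := by
    have h3 : 5 / δ₀ < L - 2 := by linarith
    rw [div_lt_iff₀ hδ₀] at h3
    exact lt_of_mul_lt_mul_right (by linarith) hL2.le
  obtain ⟨c, hc, k, hk, hP⟩ := hfast δ hδ hδδ₀
  have hcM : c ∉ multibrotSet 2 := by
    intro h
    have := (mem_multibrot_iff le_rfl _).1 h k
    linarith
  rw [← mem_compl_iff, ← hψ.image] at hcM
  obtain ⟨w, hw, hwc⟩ := hcM
  have hw' : 1 < ‖w‖ := hw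
  rw [← hwc] at hP hc
  have hklog : (k : ℝ) * Real.log 2 ≤ L - 2 := by
    have h1 : (k : ℝ) * δ * Real.log 2 ≤ (Real.pi + η) * Real.log 2 :=
      mul_le_mul_of_nonneg_right hk hlog2.le
    rw [← hδL] at h1
    have h2 : δ * ((k : ℝ) * Real.log 2) ≤ δ * (L - 2) := by linarith
    exact le_of_mul_le_mul_left h2 hδ
  have hrw : r ≤ ‖w‖ := by
    by_contra hcon
    push Not at hcon
    obtain ⟨n, rfl⟩ : ∃ n, k = n + 1 := by
      rcases Nat.eq_zero_or_pos k with h0 | h0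
      · rw [h0, P_zero, norm_zero] at hP
        norm_num at hP
      · exact Nat.exists_eq_add_of_le' h0
    have h1 := P_le_two le_rfl hψ hw' n
    have h2 : 6 / 5 < ‖w‖ ^ (2 ^ n) := by linarith
    have h3 : ‖w‖ ^ (2 ^ n) ≤ Real.exp ((r - 1) * 2 ^ n) := by
      have h4 : ‖w‖ ≤ Real.exp (r - 1) := by
        have := Real.add_one_le_exp (r - 1)
        linarith
      calc ‖w‖ ^ (2 ^ n) ≤ (Real.exp (r - 1)) ^ (2 ^ n) := pow_le_pow_left₀ (norm_nonneg _) h4 _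
        _ = Real.exp ((r - 1) * 2 ^ n) := by
            rw [← Real.exp_nat_mul]
            congr 1
            push_cast
            ring
    have h4 : (2 : ℝ) ^ n ≤ Real.exp (L - 2) := by
      have h5 : (2 : ℝ) ^ n = Real.exp (n * Real.log 2) := by
        rw [Real.exp_nat_mul, Real.exp_log (by norm_num)]
      rw [h5, Real.exp_le_exp]
      push_cast at hklog
      linarith
    have h5 : (r - 1) * 2 ^ n ≤ Real.exp (-2) := by
      have h6 := mul_le_mul_of_nonneg_left h4 hrpos.le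
      rw [sub_eq_add_neg L 2, Real.exp_add, hexpL] at h6
      refine h6.trans (le_of_eq ?_)
      field_simp
    have h6 : Real.exp (-2) ≤ 15 / 100 := by
      have h7 := Real.exp_one_gt_d9
      have h8 : Real.exp (-2) = (Real.exp 1 * Real.exp 1)⁻¹ := by
        rw [← Real.exp_add, ← Real.exp_neg]
        norm_num
      rw [h8, inv_le_comm₀ (by positivity) (by norm_num)]
      nlinarith
    have h7 : Real.exp ((r - 1) * 2 ^ n) ≤ Real.exp (15 / 100) :=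
      Real.exp_le_exp.2 (h5.trans h6)
    have h8 : Real.exp (15 / 100) ≤ 6 / 5 := by
      have h9 := Real.exp_bound_div_one_sub_of_interval (x := 15 / 100) (by norm_num) (by norm_num)
      refine h9.trans ?_
      norm_num
    linarith
  obtain ⟨z, hz1, hz2⟩ := Pool.Agent.Results.MP_c6f924_an.EquipotentialsAtRoots.circle_min le_rfl hψ
    mem_root hr hrw
  refine ⟨z, hz1, ?_⟩
  rw [show ψ z - -3 / 4 = ψ z + 3 / 4 by ring, show ψ w - -3 / 4 = ψ w + 3 / 4 by ring] at hz2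
  have h1 : ‖ψ z + 3 / 4‖ * L ≤ δ * (1 + δ) * L :=
    mul_le_mul_of_nonneg_right (hz2.trans hc) (by linarith)
  refine h1.trans ?_
  -- `δ (1 + δ) L = (π + η) log 2 (1 + δ) L / (L - 2)`
  have hηL : 100 < η * (L - 2) := by
    have h13 : 100 / η < L - 2 := by linarith
    rw [div_lt_iff₀ hη] at h13
    linarith
  have h2 : δ * L = (Real.pi + η) * Real.log 2 + 2 * δ := by linarith
  have h3 : δ ≤ η / 20 := by
    have h4 : δ * (L - 2) ≤ η / 20 * (L - 2) := by linarith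
    exact le_of_mul_le_mul_right h4 hL2
  have h4 : δ * (1 + δ) * L = δ * L + δ * (δ * L) := by ring
  rw [h4, h2]
  have h5 : (Real.pi + η) * Real.log 2 ≤ 4 := by nlinarith
  nlinarith

/-- **The distance of `-3/4` to the equipotentials of the Mandelbrot set.** -/
theorem result :
    (∃ ψ : ℂ → ℂ, IsExteriorMap mandelbrotSet ψ) ∧
    ∀ ψ : ℂ → ℂ, IsExteriorMap mandelbrotSet ψ →
      Tendsto (fun r : ℝ => infDist (-3 / 4) (ψ '' {z : ℂ | ‖z‖ = r}) * Real.log (1 / (r - 1)))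
        (𝓝[>] 1) (𝓝 (Real.pi * Real.log 2)) := by
  obtain ⟨β, hβ⟩ := exists_beta (d := 2) le_rfl
  refine ⟨⟨_, exteriorMap_of_beta hβ⟩, ?_⟩
  intro ψ hψ
  have hl2 := Real.log_two_lt_d9
  have hl2' := Real.log_two_gt_d9
  rw [Metric.tendsto_nhds]
  intro ε hε
  obtain ⟨η, hη, hη1, hηε⟩ : ∃ η : ℝ, 0 < η ∧ η < 1 ∧ 2 * η < ε :=
    ⟨min (1 / 2) (ε / 4), by positivity, (min_le_left _ _).trans_lt (by norm_num), by
      have := min_le_right (1 / 2) (ε / 4)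
      linarith⟩
  obtain ⟨r₁, hr₁, h1⟩ := lower hψ hη hη1
  obtain ⟨r₂, hr₂, h2⟩ := upper hψ hη hη1
  have hmem : Ioo 1 (min (min r₁ r₂) 2) ∈ 𝓝[>] (1 : ℝ) :=
    Ioo_mem_nhdsGT (lt_min (lt_min hr₁ hr₂) (by norm_num))
  filter_upwards [hmem] with r hr
  obtain ⟨hr1, hr2⟩ := hr
  have hrr₁ : r < r₁ := hr2.trans_le ((min_le_left _ _).trans (min_le_left _ _))
  have hrr₂ : r < r₂ := hr2.trans_le ((min_le_left _ _).trans (min_le_right _ _))
  have hr22 : r < 2 := hr2.trans_le (min_le_right _ _)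
  obtain ⟨L, hL⟩ : ∃ L, L = Real.log (1 / (r - 1)) := ⟨_, rfl⟩
  have hLpos : 0 < L := by
    rw [hL]
    apply Real.log_pos
    rw [lt_div_iff₀ (by linarith)]
    linarith
  obtain ⟨z, hz, hzle⟩ := h2 r hr1 hrr₂
  rw [← hL] at hzle ⊢
  have hd : ∀ w : ℂ, dist (-3 / 4) (ψ w) = ‖ψ w + 3 / 4‖ := by
    intro w
    rw [dist_comm, dist_eq_norm]
    congr 1
    ring
  have hup : infDist (-3 / 4) (ψ '' {z : ℂ | ‖z‖ = r}) ≤ ‖ψ z + 3 / 4‖ := by
    rw [← hd]
    exact infDist_le_dist_of_mem ⟨z, hz, rfl⟩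
  have hlo : (Real.pi - 2 * η) * Real.log 2 / L ≤ infDist (-3 / 4) (ψ '' {z : ℂ | ‖z‖ = r}) := by
    have hne : (ψ '' {z : ℂ | ‖z‖ = r}).Nonempty := ⟨ψ z, z, hz, rfl⟩
    rw [le_infDist hne]
    rintro _ ⟨w, hw, rfl⟩
    rw [hd, div_le_iff₀ hLpos]
    have hw' : ‖w‖ = r := hw
    have h3 := h1 w (by rw [hw']; exact hr1) (by rw [hw']; exact hrr₁)
    rwa [hw', ← hL] at h3
  rw [div_le_iff₀ hLpos] at hlo
  have hup' := mul_le_mul_of_nonneg_right hup hLpos.le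
  rw [Real.dist_eq, abs_lt]
  constructor <;> nlinarith

end Pool.Agent.Results.MP_c6f924_an.PiAtPeriodTwoRoot
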