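import Mathlib
import Pool.Prelude.Def_F_c31e40fa
import Pool.Agent.X215.Tip.Sharp2
import Pool.Agent.X215.Tip.Asym

/-!
# The Mandelbrot set and its exterior map at the tip `-2`

The Mandelbrot set `M` lies in the horn `|Im c| ≤ 20 |c + 2| ^ (3/2)`, `|c + 2| ≤ 3 (Re c + 2)`, and the exponent
`3/2` is sharp: there are points `c` of `M`, arbitrarily near `-2`, with `|Im c| ≥ |c + 2| ^ (3/2) / 200`.
The equipotentials `ψ {|z| = r}` of the exterior map `ψ` of `M` have distance `(3/2 + o(1)) (log r)²` from `-2`, which is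
attained on the real axis up to the factor `1 + o(1)`.  Behind this is an inequality which compares `ψ` with the exterior
map of the segment `[-2, 2]`: for all `|z| > 1` and `n ≥ 0`, with `x = f_c^{n+1}(0)`, `c = ψ z` and `Λ = |z|^{2^n}`,
`||x - 2| + |x + 2| - 2 (Λ + 1/Λ)| ≤ (2/3) |c + 2|`.
-/

set_option autoImplicit false

open Filter Topology Metric Set N62a1eb23 Bornology

namespace Pool.Agent.Results.MP_c6f924_an.TipGeometry

open Pool.Agent.H713R2 Pool.Agent.H712R2 Pool.Agent.X215.Tip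

theorem lower_dist {ψ : ℂ → ℂ} (hψ : IsExteriorMap (multibrotSet 2) ψ) {η : ℝ} (hη : 0 < η) :
    ∃ δ : ℝ, 0 < δ ∧ ∀ z : ℂ, 1 < ‖z‖ → Real.log ‖z‖ < δ →
      (3 / 2 - η) * Real.log ‖z‖ ^ 2 ≤ ‖ψ z + 2‖ := by
  obtain ⟨n, hn⟩ := exists_pow_lt_of_lt_one (show 0 < η / 3 by positivity)
    (show (1 / 4 : ℝ) < 1 by norm_num)
  have hn' : (1 : ℝ) / 4 ^ (n + 1) ≤ η / 3 := by
    have h1 : (1 : ℝ) / 4 ^ (n + 1) ≤ (1 / 4) ^ n := by
      rw [one_div_pow]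
      apply one_div_le_one_div_of_le (by positivity)
      exact pow_le_pow_right₀ (by norm_num) (by omega)
    linarith
  obtain ⟨A, hA⟩ : ∃ A : ℝ, A = 4 ^ n := ⟨_, rfl⟩
  have hA0 : 0 < A := by rw [hA]; positivity
  obtain ⟨δ₀, hδ₀⟩ : ∃ δ₀ : ℝ, δ₀ = min (1 / (4 * A)) (η / (9 * A)) := ⟨_, rfl⟩
  have hδpos : 0 < δ₀ := by rw [hδ₀]; positivity
  refine ⟨min 1 (δ₀ / 2), by positivity, ?_⟩
  intro z hz hL
  have hL0 : 0 < Real.log ‖z‖ := Real.log_pos hz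
  have hL1 : Real.log ‖z‖ < 1 := hL.trans_le (min_le_left _ _)
  have hL2 : Real.log ‖z‖ < δ₀ / 2 := hL.trans_le (min_le_right _ _)
  obtain ⟨W, hW⟩ : ∃ W, W = ‖ψ z + 2‖ := ⟨_, rfl⟩
  have hW0 : 0 ≤ W := by rw [hW]; exact norm_nonneg _
  rcases le_or_gt W δ₀ with h | h
  · have h1 : W ≤ 1 / (4 * A) := h.trans (by rw [hδ₀]; exact min_le_left _ _)
    have h2 : W ≤ η / (9 * A) := h.trans (by rw [hδ₀]; exact min_le_right _ _)
    rw [le_div_iff₀ (by positivity)] at h1 h2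
    have h3 := pot_le hψ hz n (by rw [pow_succ (4 : ℝ) n, ← hA, ← hW]; linarith)
    rw [← hA, ← hW] at h3
    rw [← hW]
    have h4 : 2 / 3 * W * (1 + 1 / 4 ^ (n + 1) + 9 / 8 * (A * W)) ≤
        2 / 3 * W * (1 + 2 * (η / 3)) := by
      apply mul_le_mul_of_nonneg_left _ (by positivity)
      have : 9 / 8 * (A * W) ≤ η / 3 := by nlinarith
      linarith
    rcases le_or_gt (3 / 2 - η) 0 with h5 | h5
    · exact (mul_nonpos_of_nonpos_of_nonneg h5 (sq_nonneg _)).trans hW0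
    · have h6 : (3 / 2 - η) * Real.log ‖z‖ ^ 2 ≤
          (3 / 2 - η) * (2 / 3 * W * (1 + 2 * (η / 3))) :=
        mul_le_mul_of_nonneg_left (h3.trans h4) h5.le
      refine h6.trans ?_
      have h7 : (3 / 2 - η) * (2 / 3 * W * (1 + 2 * (η / 3))) = W - 4 / 9 * η ^ 2 * W := by ring
      rw [h7]
      have : 0 ≤ 4 / 9 * η ^ 2 * W := by positivity
      linarith
  · rw [← hW]
    have h1 : Real.log ‖z‖ ^ 2 ≤ δ₀ / 2 := by nlinarith
    have h2 : (3 / 2 - η) * Real.log ‖z‖ ^ 2 ≤ 3 / 2 * Real.log ‖z‖ ^ 2 :=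
      mul_le_mul_of_nonneg_right (by linarith) (sq_nonneg _)
    linarith

theorem axis {ψ : ℂ → ℂ} (hψ : IsExteriorMap (multibrotSet 2) ψ) {r : ℝ} (hr : 1 < r) :
    ∃ t : ℝ, 0 < t ∧ ψ (-r) = ((-2 - t : ℝ) : ℂ) ∧ t * (t + 8 / 3) ≤ (r - r⁻¹) ^ 2 := by
  have h1 := psi_neg hψ hr
  have h2 : ψ (-r) = ((-2 - (-2 - (ψ (-r)).re) : ℝ) : ℂ) := by
    rw [sub_sub_cancel]
    exact psi_real hψ hr
  have hz : 1 < ‖(-(r : ℂ))‖ := by rwa [norm_neg_real hr]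
  have h3 := pot_ge hψ hz (by linarith : 0 < -2 - (ψ (-r)).re) h2
  rw [norm_neg_real hr] at h3
  exact ⟨-2 - (ψ (-r)).re, by linarith, h2, h3⟩

theorem axis_limit {ψ : ℂ → ℂ} (hψ : IsExteriorMap (multibrotSet 2) ψ) :
    Tendsto (fun r : ℝ => (ψ (-r) + 2) / (Real.log r : ℂ) ^ 2) (𝓝[>] 1) (𝓝 (-(3 / 2))) := by
  have hreal : Tendsto (fun r : ℝ => (-2 - (ψ (-r)).re) / Real.log r ^ 2) (𝓝[>] 1)
      (𝓝 (3 / 2)) := by
    rw [tendsto_order]
    constructor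
    · intro a ha
      obtain ⟨δ, hδ, h⟩ := lower_dist hψ (η := (3 / 2 - a) / 2) (by linarith)
      have h1 : ∀ᶠ r : ℝ in 𝓝[>] 1, Real.log r < δ := by
        have h2 : ContinuousAt Real.log 1 := Real.continuousAt_log one_ne_zero
        have h3 : Tendsto Real.log (𝓝 1) (𝓝 0) := by simpa using h2.tendsto
        exact (h3.mono_left nhdsWithin_le_nhds).eventually (gt_mem_nhds hδ)
      filter_upwards [self_mem_nhdsWithin, h1] with r hr hr2
      have hr' : 1 < r := hr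
      have hL : 0 < Real.log r := Real.log_pos hr'
      obtain ⟨t, ht, ht2, -⟩ := axis hψ hr'
      have h4 := h (-(r : ℂ)) (by rwa [norm_neg_real hr']) (by rwa [norm_neg_real hr'])
      rw [norm_neg_real hr', ht2] at h4
      have h5 : ‖((-2 - t : ℝ) : ℂ) + 2‖ = t := by
        rw [show ((-2 - t : ℝ) : ℂ) + 2 = ((-t : ℝ) : ℂ) by push_cast; ring, Complex.norm_real,
          Real.norm_eq_abs, abs_neg, abs_of_pos ht]
      rw [h5] at h4
      rw [ht2, Complex.ofReal_re, lt_div_iff₀ (by positivity)]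
      have h6 : a * Real.log r ^ 2 < (3 / 2 - (3 / 2 - a) / 2) * Real.log r ^ 2 :=
        mul_lt_mul_of_pos_right (by linarith) (by positivity)
      linarith
    · intro b hb
      have h1 : ∀ᶠ r : ℝ in 𝓝[>] 1, 3 / 8 * (r + 1) ^ 2 < b := by
        have h2 : Continuous fun r : ℝ => 3 / 8 * (r + 1) ^ 2 := by fun_prop
        have h3 : Tendsto (fun r : ℝ => 3 / 8 * (r + 1) ^ 2) (𝓝 1) (𝓝 (3 / 2)) := by
          have := h2.tendsto 1
          norm_num at this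
          exact this
        exact (h3.mono_left nhdsWithin_le_nhds).eventually (gt_mem_nhds hb)
      filter_upwards [self_mem_nhdsWithin, h1] with r hr hr2
      have hr' : 1 < r := hr
      have hr0 : 0 < r := by linarith
      have hL : 0 < Real.log r := Real.log_pos hr'
      obtain ⟨t, ht, ht2, ht3⟩ := axis hψ hr'
      rw [ht2, Complex.ofReal_re, div_lt_iff₀ (by positivity)]
      have h4 := Real.one_sub_inv_le_log_of_pos hr0
      have h5 : r - r⁻¹ = (1 - r⁻¹) * (r + 1) := by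
        field_simp
        ring
      have h6 : 0 < r⁻¹ := inv_pos.2 hr0
      have h7 : r⁻¹ < 1 := inv_lt_one_of_one_lt₀ hr'
      have h8 : (r - r⁻¹) ^ 2 ≤ (Real.log r * (r + 1)) ^ 2 := by
        rw [h5]
        apply pow_le_pow_left₀
        · have : 0 < 1 - r⁻¹ := by linarith
          positivity
        · gcongr
      have h9 : 8 / 3 * t ≤ Real.log r ^ 2 * (r + 1) ^ 2 := by
        rw [mul_pow] at h8
        nlinarith
      have h10 : 3 / 8 * (r + 1) ^ 2 * Real.log r ^ 2 < b * Real.log r ^ 2 :=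
        mul_lt_mul_of_pos_right hr2 (by positivity)
      linarith
  have hc := (Complex.continuous_ofReal.tendsto _).comp hreal
  have hc2 := hc.neg
  have e : -(((3 / 2 : ℝ)) : ℂ) = -(3 / 2) := by push_cast; rfl
  rw [e] at hc2
  refine hc2.congr' ?_
  filter_upwards [self_mem_nhdsWithin] with r hr
  obtain ⟨t, ht, ht2, -⟩ := axis hψ (show 1 < r from hr)
  simp only [Function.comp_apply]
  rw [ht2, Complex.ofReal_re]
  push_cast
  ring

/-- The Mandelbrot set and its exterior map at the tip `-2`. -/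
theorem result :
    -- (1) the filled Julia set of `z ^ 2 + c` lies in an ellipse with foci `± 2`
    (∀ c z : ℂ, ¬ Tendsto (fun k : ℕ => (fun x : ℂ => x ^ 2 + c)^[k] z) atTop (cobounded ℂ) →
      ‖z - 2‖ + ‖z + 2‖ ≤ 4 + 2 / 3 * ‖c + 2‖) ∧
    -- (2) the Mandelbrot set lies in a horn of exponent `3/2`
    (∀ c ∈ mandelbrotSet, ‖c + 2‖ ≤ 3 * (c.re + 2) ∧ |c.im| ≤ 20 * ‖c + 2‖ ^ (3 / 2 : ℝ)) ∧
    -- (3) the exponent is sharp
    (∀ δ : ℝ, 0 < δ → ∃ c ∈ mandelbrotSet, c ≠ -2 ∧ ‖c + 2‖ < δ ∧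
      ‖c + 2‖ ^ (3 / 2 : ℝ) / 200 ≤ |c.im|) ∧
    (∃ ψ : ℂ → ℂ, IsExteriorMap mandelbrotSet ψ) ∧
    ∀ ψ : ℂ → ℂ, IsExteriorMap mandelbrotSet ψ →
      -- (4) comparison with the exterior map of the segment `[-2, 2]`
      (∀ z : ℂ, 1 < ‖z‖ → ∀ n : ℕ,
        |‖(fun x : ℂ => x ^ 2 + ψ z)^[n + 1] 0 - 2‖ + ‖(fun x : ℂ => x ^ 2 + ψ z)^[n + 1] 0 + 2‖ -
          2 * (‖z‖ ^ (2 ^ n) + (‖z‖ ^ (2 ^ n))⁻¹)| ≤ 2 / 3 * ‖ψ z + 2‖) ∧
      -- (5) the real axis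
      (∀ r : ℝ, 1 < r → ∃ t : ℝ, 0 < t ∧ ψ (-r) = -2 - t ∧ t * (t + 8 / 3) ≤ (r - r⁻¹) ^ 2) ∧
      Tendsto (fun r : ℝ => (ψ (-r) + 2) / (Real.log r : ℂ) ^ 2) (𝓝[>] 1) (𝓝 (-(3 / 2))) ∧
      -- (6) all directions
      ∀ η : ℝ, 0 < η → ∃ δ : ℝ, 0 < δ ∧ ∀ z : ℂ, 1 < ‖z‖ → Real.log ‖z‖ < δ →
        (3 / 2 - η) * Real.log ‖z‖ ^ 2 ≤ ‖ψ z + 2‖ := by
  refine ⟨fun c z h => julia_ellipse c z h, fun c hc => ⟨?_, horn hc⟩, fun δ hδ => sharp hδ, ?_, ?_⟩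
  · obtain ⟨w, rfl⟩ : ∃ w, c = -2 + w := ⟨c + 2, by ring⟩
    have h := re_lower hc
    rw [show -2 + w + 2 = w by ring]
    have h2 : (-2 + w).re = -2 + w.re := by simp
    rw [h2]
    linarith
  · obtain ⟨β, hβ⟩ := exists_beta (d := 2) le_rfl
    exact ⟨_, exteriorMap_of_beta hβ⟩
  · intro ψ hψ
    refine ⟨fun z hz n => compare hψ hz n, fun r hr => ?_, axis_limit hψ,
      fun η hη => lower_dist hψ hη⟩
    obtain ⟨t, ht, h1, h2⟩ := axis hψ hr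
    exact ⟨t, ht, by rw [h1]; push_cast; ring, h2⟩

end Pool.Agent.Results.MP_c6f924_an.TipGeometry
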